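import Mathlib

/-!
# The Euler part of an odd perfect number

For an odd perfect number `q ^ k * n ^ 2` in Eulerian form with `k > 1`:
`q ^ (k + 1) < (k + 1) * n ^ 2`.
-/

set_option autoImplicit false

namespace Pool.Agent.H17E

open ArithmeticFunction Finset

/-- geometric sums -/
theorem geo {p : ℕ} (hp : p.Prime) (i : ℕ) :
    sigma 1 (p ^ i) * (p - 1) + 1 = p ^ (i + 1) := by
  have h1 : p - 1 + 1 = p := Nat.sub_add_cancel hp.one_lt.le
  have h := geom_sum_mul_add (p - 1) (i + 1)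
  rw [h1] at h
  rw [sigma_one_apply_prime_pow hp]
  exact h

theorem le_sig {n : ℕ} (hn : n ≠ 0) : n ≤ sigma 1 n := by
  rw [sigma_one_apply]
  exact single_le_sum (f := fun d => d) (fun _ _ => Nat.zero_le _) (Nat.mem_divisors_self n hn)

theorem coprime_sig_self {p : ℕ} (hp : p.Prime) (i : ℕ) : Nat.Coprime (sigma 1 (p ^ i)) p := by
  rw [sigma_one_apply_prime_pow hp, Finset.sum_range_succ']
  rw [pow_zero]
  have h : p ∣ ∑ k ∈ range i, p ^ (k + 1) := dvd_sum fun k _ => dvd_pow_self p (Nat.succ_ne_zero k)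
  obtain ⟨t, ht⟩ := h
  rw [ht]
  simp

/-- The valuation of `σ (q ^ k)` at an odd prime divisor of `q + 1`. -/
theorem val_sig {p q k K : ℕ} (hp : p.Prime) (hp2 : p ≠ 2) (hq : q.Prime) (hpq : p ∣ q + 1)
    (hk : k + 1 = 2 * K) (hK : K ≠ 0) :
    padicValNat p (sigma 1 (q ^ k)) = padicValNat p (q + 1) + padicValNat p K := by
  have : Fact p.Prime := ⟨hp⟩
  have hq1 : 1 < q := hq.one_lt
  have hW0 : sigma 1 (q ^ k) ≠ 0 := by
    have := le_sig (n := q ^ k) (pow_ne_zero _ hq.ne_zero)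
    have h2 : 0 < q ^ k := pow_pos hq.pos _
    omega
  have h1 : sigma 1 (q ^ k) * (q - 1) = (q ^ 2) ^ K - 1 ^ K := by
    rw [← pow_mul, ← hk, one_pow]
    have := geo hq k
    omega
  have hpx : p ∣ q ^ 2 - 1 := by
    have : q ^ 2 - 1 = (q + 1) * (q - 1) := by
      have := Nat.sq_sub_sq q 1
      simpa using this
    rw [this]
    exact hpq.mul_right _
  have hnp : ¬ p ∣ q ^ 2 := by
    intro h
    have h2 : p ∣ q := hp.dvd_of_dvd_pow h
    have h3 : p ∣ 1 := (Nat.dvd_add_right h2).1 hpq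
    exact hp.one_lt.ne' (Nat.dvd_one.1 h3)
  have h3 := padicValNat.pow_sub_pow (p := p) (x := q ^ 2) (y := 1) (hp.odd_of_ne_two hp2)
    (one_lt_pow₀ hq1 two_ne_zero) hpx hnp hK
  rw [← h1] at h3
  have h4 : q ^ 2 - 1 = (q + 1) * (q - 1) := by
    have := Nat.sq_sub_sq q 1
    simpa using this
  rw [h4, padicValNat.mul hW0 (by omega), padicValNat.mul (by omega) (by omega)] at h3
  omega

/-- The two relations between `n`, `m = σ (n ^ 2) / q ^ k` and `σ (q ^ k)`. -/
theorem setup {q k n : ℕ} (hodd : Odd (q ^ k * n ^ 2)) (hperf : Nat.Perfect (q ^ k * n ^ 2))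
    (hq : q.Prime) (hcop : Nat.Coprime q n) :
    ∃ m, m ≠ 0 ∧ sigma 1 (n ^ 2) = q ^ k * m ∧ sigma 1 (q ^ k) * m = 2 * n ^ 2 := by
  have hn0 : n ≠ 0 := by
    rintro rfl
    simp at hodd
  have hpos : 0 < q ^ k * n ^ 2 := Nat.mul_pos (pow_pos hq.pos _) (by positivity)
  have h1 : sigma 1 (q ^ k * n ^ 2) = 2 * (q ^ k * n ^ 2) := by
    rw [sigma_one_apply]
    exact (Nat.perfect_iff_sum_divisors_eq_two_mul hpos).1 hperf
  have hc : Nat.Coprime (q ^ k) (n ^ 2) := (hcop.pow_left k).pow_right 2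
  rw [isMultiplicative_sigma.map_mul_of_coprime hc] at h1
  have h2 : Nat.Coprime (q ^ k) (sigma 1 (q ^ k)) := (coprime_sig_self hq k).symm.pow_left k
  have h3 : q ^ k ∣ sigma 1 (n ^ 2) := by
    refine h2.dvd_of_dvd_mul_left ?_
    rw [h1]
    exact ⟨2 * n ^ 2, by ring⟩
  obtain ⟨m, hm⟩ := h3
  have hs0 : sigma 1 (n ^ 2) ≠ 0 := by
    have := le_sig (n := n ^ 2) (pow_ne_zero _ hn0)
    have h2 : 0 < n ^ 2 := by positivity
    omega
  refine ⟨m, ?_, hm, ?_⟩
  · rintro rfl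
    rw [mul_zero] at hm
    exact hs0 hm
  · rw [hm] at h1
    have h4 : q ^ k * (sigma 1 (q ^ k) * m) = q ^ k * (2 * n ^ 2) := by
      rw [show q ^ k * (sigma 1 (q ^ k) * m) = sigma 1 (q ^ k) * (q ^ k * m) by ring, h1]
      ring
    exact Nat.eq_of_mul_eq_mul_left (pow_pos hq.pos k) h4

theorem dvd_sig {q k K : ℕ} (hq : q.Prime) (hk : k + 1 = 2 * K) : q + 1 ∣ sigma 1 (q ^ k) := by
  have hq1 := hq.one_lt
  have h1 : sigma 1 (q ^ k) * (q - 1) = (q ^ 2) ^ K - 1 ^ K := by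
    rw [← pow_mul, ← hk, one_pow]
    have := geo hq k
    omega
  have h4 : q ^ 2 - 1 = (q + 1) * (q - 1) := by
    have := Nat.sq_sub_sq q 1
    simpa using this
  have h2 := Nat.sub_dvd_pow_sub_pow (q ^ 2) 1 K
  rw [← h1, h4] at h2
  exact Nat.dvd_of_mul_dvd_mul_right (by omega) h2

theorem arith_two {x y : ℕ} (h : (2 * x + 5) * (y + 2) < (y + 2 + 1) * (x + 3)) : False := by
  have h1 : 0 ≤ x * y := Nat.zero_le _
  nlinarith

/-- `p = t + 1`, `t * μ = 1 + P * j`, `t ∣ 1 + P * j`, `P ≡ 1` modulo `t`. -/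
theorem arith_one {t μ P j : ℕ} (ht : 2 ≤ t) (hP : t + 1 ≤ P) (hPt : t ∣ P - 1)
    (h : t * μ = 1 + P * j) (hμ : Odd μ) (hlt : μ * μ * t < (t + 1) * P) : False := by
  obtain ⟨w, hw⟩ := hPt
  have hPw : P = t * w + 1 := by omega
  -- `t ∣ 1 + j`
  have h1 : t ∣ 1 + j := by
    have h2 : t ∣ t * (w * j) + (1 + j) := by
      have h3 : t * (w * j) + (1 + j) = t * μ := by
        rw [h, hPw]
        ring
      rw [h3]
      exact dvd_mul_right _ _
    exact (Nat.dvd_add_right (dvd_mul_right _ _)).1 h2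
  obtain ⟨e, he⟩ := h1
  have he1 : 1 ≤ e := by
    rcases Nat.eq_zero_or_pos e with h0 | h0
    · rw [h0, mul_zero] at he
      omega
    · exact h0
  -- `j ≥ t - 1`
  obtain ⟨s, hs⟩ : ∃ s, t = s + 1 := ⟨t - 1, by omega⟩
  have hj : s ≤ j := by nlinarith
  have h4 : 1 + P * s ≤ t * μ := by
    rw [h]
    have := Nat.mul_le_mul_left P hj
    omega
  have h5 : (t * μ) * (t * μ) < (t + 1) * P * t := by
    calc (t * μ) * (t * μ) = μ * μ * t * t := by ring
      _ < (t + 1) * P * t := Nat.mul_lt_mul_of_pos_right hlt (by omega)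
  have h6 : (1 + P * s) * (1 + P * s) ≤ (t * μ) * (t * μ) := Nat.mul_le_mul h4 h4
  have h7 : (1 + P * s) * (1 + P * s) < (s + 2) * P * (s + 1) := by
    have := h6.trans_lt h5
    rw [hs] at this
    exact this
  rcases Nat.lt_or_ge s 2 with h8 | h8
  · have h9 : s = 1 := by omega
    subst h9
    have h10 : t = 2 := by omega
    subst h10
    have h11 : P < 4 := by
      by_contra h12
      push Not at h12
      nlinarith
    have h13 : P = 3 := by omega
    subst h13
    obtain ⟨y, hy⟩ := hμ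
    have h14 : μ < 3 := by
      by_contra h12
      push Not at h12
      nlinarith
    have h15 : μ = 1 := by omega
    subst h15
    omega
  · have h9 : (s + 2) * (s + 1) ≤ P * s * s := by
      have h10 : s + 2 ≤ P := by omega
      calc (s + 2) * (s + 1) ≤ (s + 2) * (s * s) := by
            apply Nat.mul_le_mul_left
            nlinarith
        _ ≤ P * (s * s) := Nat.mul_le_mul_right _ h10
        _ = P * s * s := by ring
    have h11 : (s + 2) * P * (s + 1) ≤ P * s * (P * s) := by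
      calc (s + 2) * P * (s + 1) = P * ((s + 2) * (s + 1)) := by ring
        _ ≤ P * (P * s * s) := Nat.mul_le_mul_left _ h9
        _ = P * s * (P * s) := by ring
    have h12 : P * s * (P * s) ≤ (1 + P * s) * (1 + P * s) :=
      Nat.mul_le_mul (Nat.le_add_left _ _) (Nat.le_add_left _ _)
    omega

end Pool.Agent.H17E
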