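import Pool.Agent.H17E.Base

set_option autoImplicit false

namespace Pool.Agent.H17E

open ArithmeticFunction Finset

theorem odd_sig {p : ℕ} (hpo : Odd p) (hp : p.Prime) (a : ℕ) : Odd (sigma 1 (p ^ (2 * a))) := by
  rw [sigma_one_apply_prime_pow hp]
  induction a with
  | zero => simp
  | succ a ih =>
    have h1 : 2 * (a + 1) + 1 = 2 * a + 1 + 1 + 1 := by ring
    rw [h1, sum_range_succ, sum_range_succ]
    have h2 : Odd (p ^ (2 * a + 1)) := hpo.pow
    have h3 : Odd (p ^ (2 * a + 1 + 1)) := hpo.pow
    rw [add_assoc]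
    exact ih.add_even (h2.add_odd h3)

/-- the local inequality at an odd prime divisor `p` of `q + 1` -/
theorem local1 {p q a b u z M : ℕ} (hp : p.Prime) (hp2 : p ≠ 2) (hq : q.Prime)
    (hq4 : q % 4 = 1) (hpq : p ∣ q + 1)
    (hA : p ^ (2 * a) = p ^ padicValNat p (q + 1) * z * M)
    (hS : sigma 1 (p ^ (2 * a)) = q ^ b * u) :
    p ^ padicValNat p (q + 1) ≤ M * u * z := by
  have : Fact p.Prime := ⟨hp⟩
  have hpo : Odd p := hp.odd_of_ne_two hp2
  have hp3 : 3 ≤ p := by
    have := hp.two_le
    omega
  have hA0 : 0 < p ^ (2 * a) := pow_pos hp.pos _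
  have hSle : p ^ (2 * a) ≤ sigma 1 (p ^ (2 * a)) := le_sig (pow_ne_zero _ hp.ne_zero)
  have hu0 : u ≠ 0 := by
    rintro rfl
    rw [mul_zero] at hS
    omega
  set P := p ^ padicValNat p (q + 1) with hP
  have hz0 : z ≠ 0 := by
    rintro rfl
    rw [hA] at hA0
    simp at hA0
  have hM0 : M ≠ 0 := by
    rintro rfl
    rw [hA] at hA0
    simp at hA0
  have hPq : P ∣ q + 1 := pow_padicValNat_dvd
  have hPodd : Odd P := hpo.pow
  have hPp : p ≤ P := by
    have h2 : 1 ≤ padicValNat p (q + 1) := one_le_padicValNat_of_dvd (by omega) hpq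
    calc p = p ^ 1 := (pow_one p).symm
      _ ≤ P := Nat.pow_le_pow_right hp.pos h2
  rcases Nat.eq_zero_or_pos b with hb | hb
  · subst hb
    rw [pow_zero, one_mul] at hS
    have hz1 : 1 ≤ z := Nat.pos_of_ne_zero hz0
    have hM1 : 1 ≤ M := Nat.pos_of_ne_zero hM0
    calc P = P * 1 * 1 := by ring
      _ ≤ P * z * M := by gcongr
      _ ≤ u := by rw [← hA, ← hS]; exact hSle
      _ = 1 * u * 1 := by ring
      _ ≤ M * u * z := by gcongr
  · by_contra hcon
    push Not at hcon
    have hgeo := geo hp (2 * a)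
    rw [hS] at hgeo
    obtain ⟨t, ht⟩ : ∃ t, p = t + 1 := ⟨p - 1, by omega⟩
    have hpt : p - 1 = t := by omega
    rw [hpt] at hgeo
    obtain ⟨h', hh'⟩ := hPq
    have hh2 : 2 ≤ h' := by
      rcases Nat.lt_or_ge h' 2 with h | h
      · exfalso
        have h8 : h' = 0 ∨ h' = 1 := by omega
        rcases h8 with h8 | h8
        · rw [h8] at hh'
          omega
        · rw [h8, mul_one] at hh'
          obtain ⟨j, hj⟩ := hPodd
          omega
      · exact h
    have hq2P : 2 * P ≤ q + 1 := by
      rw [hh']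
      nlinarith
    have hPleq : P ≤ q := by omega
    have hkey : q ^ b * u * u * t < p * P * q := by
      have h2 : q ^ b * u * t < p * p ^ (2 * a) := by
        have : p ^ (2 * a + 1) = p * p ^ (2 * a) := by ring
        omega
      have h3 : q ^ b * u * t * u < p * p ^ (2 * a) * u :=
        Nat.mul_lt_mul_of_pos_right h2 (Nat.pos_of_ne_zero hu0)
      rw [hA] at h3
      have h5 : p * (P * z * M) * u = p * P * (M * u * z) := by ring
      have h7 : p * P * (M * u * z) ≤ p * P * q :=
        Nat.mul_le_mul_left _ (hcon.le.trans hPleq)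
      calc q ^ b * u * u * t = q ^ b * u * t * u := by ring
        _ < p * P * q := by rw [h5] at h3; exact h3.trans_le h7
    obtain ⟨b', rfl⟩ : ∃ b', b = b' + 1 := ⟨b - 1, by omega⟩
    have hkey2 : q ^ b' * u * u * t < p * P := by
      have h2 : q * (q ^ b' * u * u * t) < q * (p * P) := by
        calc q * (q ^ b' * u * u * t) = q ^ (b' + 1) * u * u * t := by ring
          _ < p * P * q := hkey
          _ = q * (p * P) := by ring
      exact lt_of_mul_lt_mul_left h2 (Nat.zero_le q)
    have hu1 : 1 ≤ u := Nat.pos_of_ne_zero hu0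
    rcases Nat.eq_zero_or_pos b' with hb' | hb'
    · subst hb'
      rw [pow_zero, one_mul] at hkey2
      rw [zero_add, pow_one] at hgeo hS
      have hPd : P ∣ p ^ (2 * a + 1) := by
        have h4 : P ∣ p ^ (2 * a) := ⟨z * M, by rw [hA]; ring⟩
        exact h4.trans (pow_dvd_pow p (by omega))
      obtain ⟨j, hj⟩ : ∃ j, t * u = 1 + P * j := by
        obtain ⟨y, hy⟩ := hPd
        have h2 : P * h' * u * t + 1 = P * y + u * t := by
          rw [hy] at hgeo
          have h3 : q * u * t + u * t = P * h' * u * t := by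
            rw [← hh']
            ring
          omega
        have h3 : 1 ≤ u * t := Nat.mul_pos (Nat.pos_of_ne_zero hu0) (by omega)
        refine ⟨h' * u * t - y, ?_⟩
        have h4 : y ≤ h' * u * t := by
          have h5 : P * y ≤ P * (h' * u * t) := by
            have : P * (h' * u * t) = P * h' * u * t := by ring
            omega
          exact Nat.le_of_mul_le_mul_left h5 (by omega)
        rw [Nat.mul_sub]
        have h5 : P * (h' * u * t) = P * h' * u * t := by ring
        have h6 : P * y ≤ P * (h' * u * t) := Nat.mul_le_mul_left _ h4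
        have h7 : t * u = u * t := mul_comm _ _
        omega
      have hPt : t ∣ P - 1 := by
        have h2 := Nat.sub_dvd_pow_sub_pow p 1 (padicValNat p (q + 1))
        rw [one_pow, hpt] at h2
        exact h2
      have hodd : Odd u := by
        have h2 := odd_sig hpo hp a
        rw [hS] at h2
        exact (Nat.odd_mul.1 h2).2
      refine arith_one (by omega) (by omega) hPt hj hodd ?_
      rw [← ht]
      exact hkey2
    · have h2 : q ≤ q ^ b' := by
        calc q = q ^ 1 := (pow_one q).symm
          _ ≤ q ^ b' := Nat.pow_le_pow_right hq.pos hb'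
      have h3 : q * t ≤ q ^ b' * u * u * t := by
        have : q * 1 * 1 * t ≤ q ^ b' * u * u * t := by gcongr
        simpa using this
      have h4 : q * t < p * P := h3.trans_lt hkey2
      subst ht
      have h5 : 3 ≤ P := hp3.trans hPp
      obtain ⟨P', hP'⟩ : ∃ P', P = P' + 3 := ⟨P - 3, by omega⟩
      obtain ⟨t', ht'⟩ : ∃ t', t = t' + 2 := ⟨t - 2, by omega⟩
      have h6 : 2 * P' + 5 ≤ q := by omega
      have h7 : (2 * P' + 5) * t ≤ q * t := Nat.mul_le_mul_right _ h6
      rw [hP', ht'] at h4
      rw [ht'] at h7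
      exact arith_two (h7.trans_lt h4)

end Pool.Agent.H17E
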