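import Pool.Agent.H17E.LocA

set_option autoImplicit false

namespace Pool.Agent.H17E

open ArithmeticFunction Finset

/-- the local inequality at a prime divisor `p > 3` of `q ^ 4 + q ^ 2 + 1` -/
theorem local2 {p q a b u z M : ℕ} (hp : p.Prime) (hp5 : 5 ≤ p) (hq : q.Prime)
    (hpq : p ∣ q ^ 4 + q ^ 2 + 1)
    (hA : p ^ (2 * a) = p ^ padicValNat p (q ^ 4 + q ^ 2 + 1) * z * M)
    (hS : sigma 1 (p ^ (2 * a)) = q ^ b * u) :
    p ^ padicValNat p (q ^ 4 + q ^ 2 + 1) ≤ (M * u * z) ^ 2 := by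
  have : Fact p.Prime := ⟨hp⟩
  have hq2 := hq.two_le
  have hA0 : 0 < p ^ (2 * a) := pow_pos hp.pos _
  have hSle : p ^ (2 * a) ≤ sigma 1 (p ^ (2 * a)) := le_sig (pow_ne_zero _ hp.ne_zero)
  have hu0 : u ≠ 0 := by
    rintro rfl
    rw [mul_zero] at hS
    omega
  have hz0 : z ≠ 0 := by
    rintro rfl
    rw [hA] at hA0
    simp at hA0
  have hM0 : M ≠ 0 := by
    rintro rfl
    rw [hA] at hA0
    simp at hA0
  have hu1 : 1 ≤ u := Nat.pos_of_ne_zero hu0
  have hz1 : 1 ≤ z := Nat.pos_of_ne_zero hz0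
  have hM1 : 1 ≤ M := Nat.pos_of_ne_zero hM0
  set v := padicValNat p (q ^ 4 + q ^ 2 + 1) with hv
  have hv1 : 1 ≤ v := one_le_padicValNat_of_dvd (by positivity) hpq
  have hmul1 : 1 ≤ M * u * z := Nat.mul_pos (Nat.mul_pos hM1 hu1) hz1
  have hfac : q ^ 4 + q ^ 2 + 1 = (q * q + q + 1) * (q * q + 1 - q) := by
    have h1 : q ≤ q * q + 1 := by nlinarith
    zify [h1]
    ring
  rcases Nat.eq_zero_or_pos b with hb | hb
  · subst hb
    rw [pow_zero, one_mul] at hS
    have h1 : p ^ v ≤ M * u * z := by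
      calc p ^ v = p ^ v * 1 * 1 := by ring
        _ ≤ p ^ v * z * M := by gcongr
        _ ≤ u := by rw [← hA, ← hS]; exact hSle
        _ = 1 * u * 1 := by ring
        _ ≤ M * u * z := by gcongr
    calc p ^ v ≤ M * u * z := h1
      _ = (M * u * z) * 1 := by ring
      _ ≤ (M * u * z) * (M * u * z) := Nat.mul_le_mul_left _ hmul1
      _ = (M * u * z) ^ 2 := by ring
  obtain ⟨b', rfl⟩ : ∃ b', b = b' + 1 := ⟨b - 1, by omega⟩
  have hgeo := geo hp (2 * a)
  have hvle : v ≤ 2 * a := by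
    have h1 : p ^ v ∣ p ^ (2 * a) := ⟨z * M, by rw [hA]; ring⟩
    exact (Nat.pow_dvd_pow_iff_le_right hp.one_lt).1 h1
  have hzM : z * M = p ^ (2 * a - v) := by
    have h1 : p ^ v * (z * M) = p ^ v * p ^ (2 * a - v) := by
      rw [← pow_add, Nat.add_sub_cancel' hvle, hA]; ring
    exact Nat.eq_of_mul_eq_mul_left (pow_pos hp.pos _) h1
  rcases Nat.eq_zero_or_pos (2 * a - v) with h2 | h2
  · -- the exact case
    exfalso
    have hva : 2 * a = v := by omega
    have ha1 : 1 ≤ a := by omega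
    have hpA : p * p ≤ p ^ (2 * a) := by
      calc p * p = p ^ 2 := by ring
        _ ≤ p ^ (2 * a) := Nat.pow_le_pow_right hp.pos (by omega)
    have hpA' : p ∣ p ^ (2 * a) := dvd_pow_self p (by omega)
    have hS' : sigma 1 (p ^ (2 * a)) = q * (q ^ b' * u) := by rw [hS]; ring
    have hgeo' : sigma 1 (p ^ (2 * a)) * (p - 1) + 1 = p * p ^ (2 * a) := by
      rw [hgeo]; ring
    have hTd : p ^ v ∣ (q * q + q + 1) * (q * q + 1 - q) := by
      rw [← hfac]; exact pow_padicValNat_dvd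
    have hTn : ¬ p ^ (v + 1) ∣ (q * q + q + 1) * (q * q + 1 - q) := by
      rw [← hfac]; exact pow_succ_padicValNat_not_dvd (by positivity)
    have hF2 : q * q + 1 - q + q = q * q + 1 := by
      have h1 : q ≤ q * q + 1 := by nlinarith
      omega
    by_cases h3 : p ∣ q * q + q + 1
    · have h4 : ¬ p ∣ q * q + 1 - q := by
        intro h
        have h5 : q * q + q + 1 = (q * q + 1 - q) + 2 * q := by omega
        rw [h5] at h3
        have h6 : p ∣ 2 * q := (Nat.dvd_add_right h).1 h3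
        rcases (Nat.Prime.dvd_mul hp).1 h6 with h7 | h7
        · have := Nat.le_of_dvd (by norm_num) h7
          omega
        · have h8 : p ∣ q * q + 1 := by
            rw [← hF2]; exact h.add h7
          have := (Nat.dvd_add_right (h7.mul_right q)).1 h8
          have := Nat.le_of_dvd (by norm_num) this
          omega
      have h5 : p ^ v ∣ q * q + q + 1 :=
        (((Nat.Prime.coprime_iff_not_dvd hp).2 h4).pow_left _).dvd_of_dvd_mul_right hTd
      obtain ⟨s, hs⟩ := h5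
      refine exact_case hp5 (Or.inl rfl) hq2 (A := p ^ (2 * a)) (s := s) ?_ ?_ hpA hpA' hS' hgeo'
      · rw [hva]; exact hs
      · rintro ⟨c, rfl⟩
        apply hTn
        rw [hs]
        exact ⟨c * (q * q + 1 - q), by ring⟩
    · have h5 : p ^ v ∣ q * q + 1 - q :=
        (((Nat.Prime.coprime_iff_not_dvd hp).2 h3).pow_left _).dvd_of_dvd_mul_left hTd
      obtain ⟨s, hs⟩ := h5
      refine exact_case hp5 (F := q * q + 1 - q) (Or.inr hF2) hq2 (A := p ^ (2 * a)) (s := s)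
        ?_ ?_ hpA hpA' hS' hgeo'
      · rw [hva]; exact hs
      · rintro ⟨c, rfl⟩
        apply hTn
        rw [hs]
        exact ⟨c * (q * q + q + 1), by ring⟩
  · have hpz : p ≤ z * M := by
      rw [hzM]
      calc p = p ^ 1 := (pow_one p).symm
        _ ≤ p ^ (2 * a - v) := Nat.pow_le_pow_right hp.pos h2
    obtain ⟨t, ht⟩ : ∃ t, p = t + 1 := ⟨p - 1, by omega⟩
    have hpt : p - 1 = t := by omega
    rw [hpt, hS] at hgeo
    obtain ⟨w, hw⟩ : ∃ w, t * u = w + 1 := ⟨t * u - 1, by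
      have : 1 ≤ t * u := Nat.mul_pos (by omega) hu1
      omega⟩
    have hw0 : w ≠ 0 := by
      rintro rfl
      have h4 : 4 * 1 ≤ t * u := Nat.mul_le_mul (by omega) hu1
      omega
    have hdvd : p ^ v ∣ w * ((w + 2) * ((w * w + 3 * w + 3) * (w * w + w + 1))) := by
      have e1 : ((q : ℤ) ^ (b' + 1) * (t * u)) ≡ -1 [ZMOD ((p ^ v : ℕ) : ℤ)] := by
        apply Int.ModEq.symm
        rw [Int.modEq_iff_dvd]
        have h4 : p ^ v ∣ p ^ (2 * a + 1) := pow_dvd_pow p (by omega)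
        rw [← hgeo] at h4
        have h5 : ((p ^ v : ℕ) : ℤ) ∣ ((q ^ (b' + 1) * u * t + 1 : ℕ) : ℤ) :=
          Int.natCast_dvd_natCast.2 h4
        have h6 : ((q ^ (b' + 1) * u * t + 1 : ℕ) : ℤ)
            = (q : ℤ) ^ (b' + 1) * (t * u) - -1 := by
          push_cast
          ring
        rwa [h6] at h5
      have e2 : (q : ℤ) ^ 6 ≡ 1 [ZMOD ((p ^ v : ℕ) : ℤ)] := by
        apply Int.ModEq.symm
        rw [Int.modEq_iff_dvd]
        have h4 : ((p ^ v : ℕ) : ℤ) ∣ ((q ^ 4 + q ^ 2 + 1 : ℕ) : ℤ) :=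
          Int.natCast_dvd_natCast.2 pow_padicValNat_dvd
        have h5 : (q : ℤ) ^ 6 - 1 = ((q ^ 4 + q ^ 2 + 1 : ℕ) : ℤ) * ((q : ℤ) ^ 2 - 1) := by
          push_cast
          ring
        rw [h5]
        exact h4.mul_right _
      have e3 : (((w : ℤ) + 1)) ^ 6 ≡ 1 [ZMOD ((p ^ v : ℕ) : ℤ)] := by
        have hwz : ((w : ℤ) + 1) = (t : ℤ) * u := by exact_mod_cast hw.symm
        rw [hwz]
        have h7 : ((q : ℤ) ^ (b' + 1)) ^ 6 ≡ 1 [ZMOD ((p ^ v : ℕ) : ℤ)] := by
          have h8 := e2.pow (b' + 1)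
          rw [one_pow, ← pow_mul, mul_comm 6 (b' + 1), pow_mul] at h8
          exact h8
        have h9 : ((q : ℤ) ^ (b' + 1)) ^ 6 * ((t : ℤ) * u) ^ 6 ≡ 1 * ((t : ℤ) * u) ^ 6
            [ZMOD ((p ^ v : ℕ) : ℤ)] := h7.mul_right _
        have h10 : ((q : ℤ) ^ (b' + 1) * ((t : ℤ) * u)) ^ 6 ≡ (-1) ^ 6
            [ZMOD ((p ^ v : ℕ) : ℤ)] := e1.pow 6
        rw [mul_pow] at h10
        rw [one_mul] at h9
        have h11 := h9.symm.trans h10
        norm_num at h11
        exact h11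
      have h12 := (Int.modEq_iff_dvd.1 e3.symm)
      have h13 : ((w : ℤ) + 1) ^ 6 - 1
          = ((w * ((w + 2) * ((w * w + 3 * w + 3) * (w * w + w + 1))) : ℕ) : ℤ) := by
        push_cast
        ring
      rw [h13] at h12
      exact Int.natCast_dvd_natCast.1 h12
    have h14 := root_bound hp hp5 hw0 hdvd
    have h15 : w + 2 ≤ M * u * z := by
      have h16 : w + 2 ≤ p * u := by
        have h17 : w + 2 = t * u + 1 := by omega
        rw [h17, ht]
        nlinarith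
      calc w + 2 ≤ p * u := h16
        _ ≤ (z * M) * u := Nat.mul_le_mul_right _ hpz
        _ = M * u * z := by ring
    exact h14.trans (Nat.pow_le_pow_left h15 2)

end Pool.Agent.H17E
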