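import Pool.Agent.H17E.Base

set_option autoImplicit false

namespace Pool.Agent.H17E

open ArithmeticFunction Finset

/-- the exact case: `p ^ (2a)` is the exact power of `p` in `F = q² ± q + 1` and `q ∣ σ(p^(2a))` is impossible -/
theorem exact_case {p q A F s w σ : ℕ} (hp5 : 5 ≤ p) (hF : F = q * q + q + 1 ∨ F + q = q * q + 1)
    (hq : 2 ≤ q) (hAs : F = A * s) (hps : ¬ p ∣ s) (hpA : p * p ≤ A) (hpA' : p ∣ A)
    (hσ : σ = q * w) (hgeo : σ * (p - 1) + 1 = p * A) : False := by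
  subst hσ
  obtain ⟨t, rfl⟩ : ∃ t, p = t + 1 := ⟨p - 1, by omega⟩
  have ht4 : 4 ≤ t := by omega
  rw [Nat.add_sub_cancel] at hgeo
  have hs0 : s ≠ 0 := by rintro rfl; simp at hps
  have hw0 : w ≠ 0 := by
    rintro rfl
    have : 1 < (t + 1) * A := by nlinarith
    omega
  have hsp : s ≠ t + 1 := by rintro rfl; exact hps dvd_rfl
  have hFle : F ≤ q * q + q + 1 := by rcases hF with h | h <;> omega
  -- p ≤ q
  have hpq : t + 1 ≤ q := by
    by_contra hcon
    push Not at hcon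
    have h1 : (t + 1) * (t + 1) ≤ A * s := by
      calc (t + 1) * (t + 1) ≤ A := hpA
        _ = A * 1 := (mul_one A).symm
        _ ≤ A * s := Nat.mul_le_mul_left _ (Nat.pos_of_ne_zero hs0)
    nlinarith
  -- in ℤ : q ∣ s - p
  have hdz : (q : ℤ) ∣ (s : ℤ) - ((t : ℤ) + 1) := by
    have h1 : ((q : ℤ) * w) * t + 1 = ((t : ℤ) + 1) * A := by exact_mod_cast hgeo
    have h2 : (F : ℤ) = A * s := by exact_mod_cast hAs
    rcases hF with h | h
    · have h3 : (F : ℤ) = q * q + q + 1 := by exact_mod_cast h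
      refine ⟨((t : ℤ) + 1) * (q + 1) - w * t * s, ?_⟩
      have h4 : (s : ℤ) * (((q : ℤ) * w) * t + 1) = ((t : ℤ) + 1) * (q * q + q + 1) := by
        rw [h1, ← h3, h2]; ring
      linarith
    · have h3 : (F : ℤ) + q = q * q + 1 := by exact_mod_cast h
      refine ⟨((t : ℤ) + 1) * (q - 1) - w * t * s, ?_⟩
      have h4 : (s : ℤ) * (((q : ℤ) * w) * t + 1) = ((t : ℤ) + 1) * (q * q + 1 - q) := by
        rw [h1, ← h3, h2]; ring
      linarith
  rcases lt_or_gt_of_ne hsp with hlt | hgt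
  · -- s < p
    have h1 : (q : ℤ) ∣ ((t : ℤ) + 1) - s := by
      have := (dvd_neg).2 hdz
      rwa [neg_sub] at this
    have h2 : (0 : ℤ) < ((t : ℤ) + 1) - s := by
      have : (s : ℤ) < (t : ℤ) + 1 := by exact_mod_cast hlt
      linarith
    have h3 := Int.le_of_dvd h2 h1
    have h4 : (1 : ℤ) ≤ s := by exact_mod_cast Nat.pos_of_ne_zero hs0
    have h5 : ((t : ℤ) + 1) ≤ q := by exact_mod_cast hpq
    linarith
  · have h2 : (0 : ℤ) < (s : ℤ) - ((t : ℤ) + 1) := by
      have : ((t : ℤ) + 1) < s := by exact_mod_cast hgt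
      linarith
    have h3 := Int.le_of_dvd h2 hdz
    have h4 : q + (t + 1) ≤ s := by
      have : (q : ℤ) + (t + 1) ≤ s := by linarith
      exact_mod_cast this
    have h5 : A < q := by
      by_contra hcon
      push Not at hcon
      have h6 : q * (q + (t + 1)) ≤ A * s := Nat.mul_le_mul hcon h4
      nlinarith
    -- w = 1
    have hw1 : w = 1 := by
      by_contra hcon
      have h6 : 2 ≤ w := by omega
      have h7 : q * 2 * t ≤ q * w * t := by gcongr
      nlinarith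
    subst hw1
    rw [mul_one] at hgeo
    -- q ≡ 1 mod p
    have hq1 : (((t : ℤ) + 1)) ∣ (q : ℤ) - 1 := by
      have h6 : (q : ℤ) * t + 1 = ((t : ℤ) + 1) * A := by exact_mod_cast hgeo
      exact ⟨(q : ℤ) - A, by linarith⟩
    have hpF : ((t : ℤ) + 1) ∣ (F : ℤ) := by
      obtain ⟨c, hc⟩ := hpA'
      have : (F : ℤ) = ((t : ℤ) + 1) * (c * s) := by
        rw [hAs, hc]; push_cast; ring
      exact ⟨_, this⟩
    obtain ⟨c, hc⟩ := hq1
    obtain ⟨d, hd⟩ := hpF
    have hqc : (q : ℤ) = 1 + ((t : ℤ) + 1) * c := by linarith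
    rcases hF with h | h
    · have h3 : (F : ℤ) = q * q + q + 1 := by exact_mod_cast h
      have h7 : ((t : ℤ) + 1) ∣ 3 := by
        refine ⟨d - c * (q + 2), ?_⟩
        rw [hd] at h3
        have : (q : ℤ) * q + q + 1 = ((t : ℤ) + 1) * (c * (q + 2)) + 3 := by
          have : (q : ℤ) * q + q + 1 = (q - 1) * (q + 2) + 3 := by ring
          rw [this, hc]; ring
        linarith
      have := Int.le_of_dvd (by norm_num) h7
      omega
    · have h3 : (F : ℤ) + q = q * q + 1 := by exact_mod_cast h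
      have h7 : ((t : ℤ) + 1) ∣ 1 := by
        refine ⟨d - c * q, ?_⟩
        rw [hd] at h3
        have : (q : ℤ) * q + 1 - q = ((t : ℤ) + 1) * (c * q) + 1 := by
          have : (q : ℤ) * q + 1 - q = (q - 1) * q + 1 := by ring
          rw [this, hc]; ring
        linarith
      have := Int.le_of_dvd (by norm_num) h7
      omega

/-- a prime power `p ^ τ` (`p > 3`) dividing `(v²-1)(v⁴+v²+1)`, `v = w + 1`, is at most `(v+1)²` -/
theorem root_bound {p τ w : ℕ} (hp : p.Prime) (hp5 : 5 ≤ p) (hw : w ≠ 0)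
    (hd : p ^ τ ∣ w * ((w + 2) * ((w * w + 3 * w + 3) * (w * w + w + 1)))) :
    p ^ τ ≤ (w + 2) ^ 2 := by
  have hcop : ∀ x : ℕ, ¬ p ∣ x → Nat.Coprime (p ^ τ) x := fun x hx =>
    ((Nat.Prime.coprime_iff_not_dvd hp).2 hx).pow_left _
  have hsmall : ∀ x : ℕ, 0 < x → x < 5 → ¬ p ∣ x := fun x hx hx5 h => by
    have := Nat.le_of_dvd hx h
    omega
  have h2 : ∀ x : ℤ, (p : ℤ) ∣ x → x ≠ 0 → 5 ≤ |x| := fun x hx hx0 => by
    have h3 : (p : ℤ) ≤ |x| := by
      have := Int.le_of_dvd (abs_pos.2 hx0) ((dvd_abs _ _).2 hx)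
      exact this
    have : (5 : ℤ) ≤ p := by exact_mod_cast hp5
    linarith
  have hcast : ∀ x : ℕ, p ∣ x → (p : ℤ) ∣ (x : ℤ) := fun x hx => Int.natCast_dvd_natCast.2 hx
  have hb1 : w ≤ (w + 2) ^ 2 := by nlinarith
  have hb2 : w + 2 ≤ (w + 2) ^ 2 := by nlinarith
  have hb3 : w * w + 3 * w + 3 ≤ (w + 2) ^ 2 := by nlinarith
  have hb4 : w * w + w + 1 ≤ (w + 2) ^ 2 := by nlinarith
  by_cases h1 : p ∣ w
  · have e2 : ¬ p ∣ (w + 2) := fun h => by
      exact hsmall 2 (by norm_num) (by norm_num) ((Nat.dvd_add_right h1).1 h)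
    have e3 : ¬ p ∣ (w * w + 3 * w + 3) := fun h => by
      have h3 : p ∣ w * w + 3 * w := (h1.mul_left w).add (h1.mul_left 3)
      exact hsmall 3 (by norm_num) (by norm_num) ((Nat.dvd_add_right h3).1 h)
    have e4 : ¬ p ∣ (w * w + w + 1) := fun h => by
      have h3 : p ∣ w * w + w := (h1.mul_left w).add h1
      exact hsmall 1 (by norm_num) (by norm_num) ((Nat.dvd_add_right h3).1 h)
    have h5 : p ^ τ ∣ w := by
      refine (hcop _ ?_).dvd_of_dvd_mul_right hd
      intro h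
      rcases (Nat.Prime.dvd_mul hp).1 h with h | h
      · exact e2 h
      · rcases (Nat.Prime.dvd_mul hp).1 h with h | h
        · exact e3 h
        · exact e4 h
    exact (Nat.le_of_dvd (Nat.pos_of_ne_zero hw) h5).trans hb1
  have hd1 : p ^ τ ∣ (w + 2) * ((w * w + 3 * w + 3) * (w * w + w + 1)) :=
    (hcop _ h1).dvd_of_dvd_mul_left hd
  by_cases h3 : p ∣ w + 2
  · have e3 : ¬ p ∣ (w * w + 3 * w + 3) := fun h => by
      have h4 : w * w + 3 * w + 3 = (w + 2) * (w + 1) + 1 := by ring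
      rw [h4] at h
      exact hsmall 1 (by norm_num) (by norm_num) ((Nat.dvd_add_right (h3.mul_right _)).1 h)
    have e4 : ¬ p ∣ (w * w + w + 1) := fun h => by
      have h4 : w * w + w + 1 + (w + 2) * 1 = (w + 2) * w + 3 := by ring
      have h5 : p ∣ (w + 2) * w + 3 := h4 ▸ (h.add (h3.mul_right 1))
      exact hsmall 3 (by norm_num) (by norm_num) ((Nat.dvd_add_right (h3.mul_right _)).1 h5)
    have h5 : p ^ τ ∣ w + 2 := by
      refine (hcop _ ?_).dvd_of_dvd_mul_right hd1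
      intro h
      rcases (Nat.Prime.dvd_mul hp).1 h with h | h
      · exact e3 h
      · exact e4 h
    exact (Nat.le_of_dvd (by omega) h5).trans hb2
  have hd2 : p ^ τ ∣ (w * w + 3 * w + 3) * (w * w + w + 1) :=
    (hcop _ h3).dvd_of_dvd_mul_left hd1
  by_cases h4 : p ∣ w * w + 3 * w + 3
  · have e4 : ¬ p ∣ (w * w + w + 1) := fun h => by
      have h5 : w * w + 3 * w + 3 = (w * w + w + 1) + 2 * (w + 1) := by ring
      rw [h5] at h4
      have h6 : p ∣ 2 * (w + 1) := (Nat.dvd_add_right h).1 h4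
      rcases (Nat.Prime.dvd_mul hp).1 h6 with h7 | h7
      · exact hsmall 2 (by norm_num) (by norm_num) h7
      · have h8 : w * w + w + 1 = (w + 1) * w + 1 := by ring
        rw [h8] at h
        exact hsmall 1 (by norm_num) (by norm_num) ((Nat.dvd_add_right (h7.mul_right _)).1 h)
    have h5 : p ^ τ ∣ w * w + 3 * w + 3 := (hcop _ e4).dvd_of_dvd_mul_right hd2
    exact (Nat.le_of_dvd (by omega) h5).trans hb3
  · have h5 : p ^ τ ∣ w * w + w + 1 := (hcop _ h4).dvd_of_dvd_mul_left hd2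
    exact (Nat.le_of_dvd (by omega) h5).trans hb4

end Pool.Agent.H17E
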