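import Mathlib

set_option autoImplicit false

namespace Pool.Agent.H17E

open ArithmeticFunction Finset

private theorem geo' {p : ℕ} (hp : p.Prime) (i : ℕ) :
    sigma 1 (p ^ i) * (p - 1) + 1 = p ^ (i + 1) := by
  have h1 : p - 1 + 1 = p := Nat.sub_add_cancel hp.one_lt.le
  have h := geom_sum_mul_add (p - 1) (i + 1)
  rw [h1] at h
  rw [sigma_one_apply_prime_pow hp]
  exact h

private theorem le_sig' {n : ℕ} (hn : n ≠ 0) : n ≤ sigma 1 n := by
  rw [sigma_one_apply]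
  exact single_le_sum (f := fun d => d) (fun _ _ => Nat.zero_le _) (Nat.mem_divisors_self n hn)

private theorem six {q : ℕ} (hq1 : 1 ≤ q) :
    q ^ 6 - 1 = (q - 1) * ((q + 1) * (q ^ 4 + q ^ 2 + 1)) := by
  obtain ⟨t, rfl⟩ : ∃ t, q = t + 1 := ⟨q - 1, by omega⟩
  rw [Nat.add_sub_cancel]
  have h : (t + 1) ^ 6 = t * ((t + 1 + 1) * ((t + 1) ^ 4 + (t + 1) ^ 2 + 1)) + 1 := by ring
  rw [h, Nat.add_sub_cancel]

/-- The valuation of `σ (q ^ k)` at a prime divisor `p > 3` of `q ^ 4 + q ^ 2 + 1`, `6 ∣ k + 1`. -/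
theorem val_sig6 {p q k L : ℕ} (hp : p.Prime) (hp5 : 5 ≤ p) (hq : q.Prime)
    (hpq : p ∣ q ^ 4 + q ^ 2 + 1) (hk : k + 1 = 6 * L) (hL : L ≠ 0) :
    padicValNat p (sigma 1 (q ^ k)) =
      padicValNat p (q ^ 4 + q ^ 2 + 1) + padicValNat p (3 * L) := by
  have : Fact p.Prime := ⟨hp⟩
  have hq1 : 1 < q := hq.one_lt
  have hsmall : ∀ x : ℕ, 0 < x → x < 5 → ¬ p ∣ x := fun x hx hx5 h => by
    have := Nat.le_of_dvd hx h
    omega
  have hW0 : sigma 1 (q ^ k) ≠ 0 := by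
    have := le_sig' (n := q ^ k) (pow_ne_zero _ hq.ne_zero)
    have h2 : 0 < q ^ k := pow_pos hq.pos _
    omega
  have h1 : sigma 1 (q ^ k) * (q - 1) = (q ^ 6) ^ L - 1 ^ L := by
    rw [← pow_mul, ← hk, one_pow]
    have := geo' hq k
    omega
  have h6 := six hq1.le
  have hpx : p ∣ q ^ 6 - 1 := by
    rw [h6]
    exact (hpq.mul_left _).mul_left _
  have hnpq : ¬ p ∣ q := by
    intro h2
    have h3 : q ^ 4 + q ^ 2 + 1 = q * (q ^ 3 + q) + 1 := by ring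
    rw [h3] at hpq
    exact hsmall 1 (by norm_num) (by norm_num) ((Nat.dvd_add_right (h2.mul_right _)).1 hpq)
  have hnp : ¬ p ∣ q ^ 6 := fun h => hnpq (hp.dvd_of_dvd_pow h)
  have hnp1 : ¬ p ∣ q + 1 := by
    intro h2
    -- q^4+q^2+1 = (q+1)(q^3 - q^2 + 2q - 2) + 3
    have h3 : q ^ 4 + q ^ 2 + 1 + (q + 1) * (q ^ 2 + 2) = (q + 1) * (q ^ 3 + 2 * q) + 3 := by ring
    have h4 : p ∣ (q + 1) * (q ^ 3 + 2 * q) + 3 := h3 ▸ (hpq.add (h2.mul_right _))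
    exact hsmall 3 (by norm_num) (by norm_num) ((Nat.dvd_add_right (h2.mul_right _)).1 h4)
  have hnp2 : ¬ p ∣ q - 1 := by
    intro h2
    obtain ⟨t, rfl⟩ : ∃ t, q = t + 1 := ⟨q - 1, by omega⟩
    rw [Nat.add_sub_cancel] at h2
    have h3 : (t + 1) ^ 4 + (t + 1) ^ 2 + 1 = t * (t ^ 3 + 4 * t ^ 2 + 7 * t + 6) + 3 := by ring
    rw [h3] at hpq
    exact hsmall 3 (by norm_num) (by norm_num) ((Nat.dvd_add_right (h2.mul_right _)).1 hpq)
  have h3 := padicValNat.pow_sub_pow (p := p) (x := q ^ 6) (y := 1)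
    (hp.odd_of_ne_two (by omega))
    (one_lt_pow₀ hq1 (by norm_num)) hpx hnp hL
  rw [← h1] at h3
  rw [h6, padicValNat.mul hW0 (by omega), padicValNat.mul (by omega) (by positivity),
    padicValNat.mul (by omega) (by positivity), padicValNat.eq_zero_of_not_dvd hnp1,
    padicValNat.eq_zero_of_not_dvd hnp2] at h3
  have h5 : padicValNat p (3 * L) = padicValNat p L := by
    rw [padicValNat.mul (by norm_num) hL,
      padicValNat.eq_zero_of_not_dvd (hsmall 3 (by norm_num) (by norm_num)), zero_add]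
  rw [h5]
  omega

theorem dvd_sig6 {q k L : ℕ} (hq : q.Prime) (hk : k + 1 = 6 * L) :
    (q + 1) * (q ^ 4 + q ^ 2 + 1) ∣ sigma 1 (q ^ k) := by
  have hq1 := hq.one_lt
  have h1 : sigma 1 (q ^ k) * (q - 1) = (q ^ 6) ^ L - 1 ^ L := by
    rw [← pow_mul, ← hk, one_pow]
    have := geo' hq k
    omega
  have h2 := Nat.sub_dvd_pow_sub_pow (q ^ 6) 1 L
  rw [← h1, six hq1.le, mul_comm (sigma 1 (q ^ k))] at h2
  exact Nat.dvd_of_mul_dvd_mul_left (by omega) h2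

end Pool.Agent.H17E
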