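import Pool.Agent.H17E.Loc1
import Pool.Agent.H17E.Loc2
import Pool.Agent.H17E.Val6b

set_option autoImplicit false

namespace Pool.Agent.H17E

open ArithmeticFunction Finset

theorem prodpow_dvd {x : ℕ} (hx : x ≠ 0) (T : Finset ℕ) (hT : ∀ p ∈ T, p.Prime) :
    ∏ p ∈ T, p ^ x.factorization p ∣ x := by
  classical
  have h1 : ∏ p ∈ T with p ∈ x.primeFactors, p ^ x.factorization p
      = ∏ p ∈ T, p ^ x.factorization p := by
    apply Finset.prod_filter_of_ne
    intro p hp hne
    rw [Nat.mem_primeFactors]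
    refine ⟨hT p hp, ?_, hx⟩
    by_contra h
    apply hne
    rw [Nat.factorization_eq_zero_of_not_dvd h, pow_zero]
  rw [← h1]
  have h2 : ∏ p ∈ x.primeFactors, p ^ x.factorization p = x :=
    Nat.prod_factorization_pow_eq_self hx
  conv_rhs => rw [← h2]
  apply prod_dvd_prod_of_subset
  intro p hp
  exact (Finset.mem_filter.1 hp).2

/-- the `q`-free part of the divisor sum of the `p`-component -/
def uu (q n p : ℕ) : ℕ :=
  sigma 1 (p ^ (n ^ 2).factorization p) /
    q ^ (sigma 1 (p ^ (n ^ 2).factorization p)).factorization q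

theorem uu_eq (q n p : ℕ) :
    sigma 1 (p ^ (n ^ 2).factorization p) =
      q ^ (sigma 1 (p ^ (n ^ 2).factorization p)).factorization q * uu q n p :=
  (Nat.ordProj_mul_ordCompl_eq_self _ q).symm

theorem produ_dvd {q n k m : ℕ} (hq : q.Prime) (hn0 : n ≠ 0)
    (hm : sigma 1 (n ^ 2) = q ^ k * m) (T : Finset ℕ) (hT : T ⊆ (n ^ 2).primeFactors) :
    ∏ p ∈ T, uu q n p ∣ m := by
  have hN0 : n ^ 2 ≠ 0 := pow_ne_zero _ hn0
  have h1 : ∏ p ∈ T, uu q n p ∣ sigma 1 (n ^ 2) := by
    have h2 : ∏ p ∈ T, uu q n p ∣ ∏ p ∈ T, sigma 1 (p ^ (n ^ 2).factorization p) := by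
      apply Finset.prod_dvd_prod_of_dvd
      intro p _
      exact Nat.ordCompl_dvd _ _
    refine h2.trans ?_
    rw [isMultiplicative_sigma.multiplicative_factorization (sigma 1) hN0]
    unfold Finsupp.prod
    rw [Nat.support_factorization]
    exact prod_dvd_prod_of_subset _ _ _ hT
  have h2 : Nat.Coprime (∏ p ∈ T, uu q n p) (q ^ k) := by
    refine Nat.Coprime.pow_right _ (Nat.Coprime.prod_left fun p hp => ?_)
    have hp' : p.Prime := Nat.prime_of_mem_primeFactors (hT hp)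
    have h0 : sigma 1 (p ^ (n ^ 2).factorization p) ≠ 0 := by
      have := le_sig (n := p ^ (n ^ 2).factorization p) (pow_ne_zero _ hp'.ne_zero)
      have h2 : 0 < p ^ (n ^ 2).factorization p := pow_pos hp'.pos _
      omega
    exact (Nat.coprime_ordCompl hq h0).symm
  rw [hm] at h1
  exact h2.dvd_of_dvd_mul_left h1

theorem nine (q : ℕ) : ¬ 9 ∣ q ^ 4 + q ^ 2 + 1 := by
  intro h
  have h1 : (q ^ 4 + q ^ 2 + 1) % 9 = 0 := Nat.mod_eq_zero_of_dvd h
  have h2 : (q ^ 4 + q ^ 2 + 1) % 9 = ((q % 9) ^ 4 + (q % 9) ^ 2 + 1) % 9 := by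
    simp [Nat.add_mod, Nat.pow_mod]
  rw [h2] at h1
  have h3 : q % 9 < 9 := Nat.mod_lt _ (by norm_num)
  interval_cases (q % 9) <;> simp at h1

theorem fac_one {q : ℕ} (hq4 : q % 4 = 1) :
    q + 1 = 2 * ∏ p ∈ (q + 1).primeFactors.erase 2, p ^ (q + 1).factorization p := by
  have h0 : q + 1 ≠ 0 := by omega
  have h2 : 2 ∈ (q + 1).primeFactors := by
    rw [Nat.mem_primeFactors]
    exact ⟨Nat.prime_two, by omega, h0⟩
  have h1 : ∏ p ∈ (q + 1).primeFactors, p ^ (q + 1).factorization p = q + 1 :=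
    Nat.prod_factorization_pow_eq_self h0
  have h3 : (q + 1).factorization 2 = 1 := by
    apply le_antisymm
    · by_contra h
      push Not at h
      have h4 : 2 ^ 2 ∣ q + 1 := (Nat.prime_two.pow_dvd_iff_le_factorization h0).2 h
      omega
    · exact (Nat.prime_two.pow_dvd_iff_le_factorization h0).1 (by omega)
  have h4 := Finset.mul_prod_erase (q + 1).primeFactors (fun p => p ^ (q + 1).factorization p) h2
  simp only [h3, pow_one] at h4
  rw [h4, h1]

theorem fac_two (q : ℕ) :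
    q ^ 4 + q ^ 2 + 1 ≤ 3 * ∏ p ∈ (q ^ 4 + q ^ 2 + 1).primeFactors.erase 3,
      p ^ (q ^ 4 + q ^ 2 + 1).factorization p := by
  set F := q ^ 4 + q ^ 2 + 1 with hF
  have h0 : F ≠ 0 := by rw [hF]; positivity
  have h1 : ∏ p ∈ F.primeFactors, p ^ F.factorization p = F :=
    Nat.prod_factorization_pow_eq_self h0
  by_cases h2 : 3 ∈ F.primeFactors
  · have h3 : F.factorization 3 ≤ 1 := by
      by_contra h
      push Not at h
      have h4 : 3 ^ 2 ∣ F := (Nat.prime_three.pow_dvd_iff_le_factorization h0).2 h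
      exact nine q (by simpa using h4)
    have h4 := Finset.mul_prod_erase F.primeFactors (fun p => p ^ F.factorization p) h2
    rw [h1] at h4
    conv_lhs => rw [← h4]
    apply Nat.mul_le_mul_right
    calc 3 ^ F.factorization 3 ≤ 3 ^ 1 := Nat.pow_le_pow_right (by norm_num) h3
      _ = 3 := by norm_num
  · rw [Finset.erase_eq_of_notMem h2, h1]
    omega

end Pool.Agent.H17E
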